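import Mathlib
import Pool.Agent.U157.BB.Dih

/-!
# The equivariant Beilinson conjecture for generalised dihedral extensions of exponent 4 and 6

The question (Beilinson): for an abelian extension `L/K` of number fields with group `G` and `k > 1`, is
`det_{ℚ[G]}(ℚ ⊗ K_{2k-1}(L)) = L^*(1 - k) det_{ℚ[G]}(B_L⁺)`? It is known for `L = K` (Borel) and for `K = ℚ` (Beilinson).
We deduce it from Borel's theorem alone for the following extensions; there is no condition on the field `F₀`.

**Theorem.** Let `F₀ ⊆ K ⊆ L` be number fields, `K/F₀` quadratic, `L/F₀` Galois with generalised dihedral group: the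
elements of `Gal(L/F₀)` outside of `Gal(L/K)` have the order `2` (so that they act on the abelian group `Gal(L/K)` by inversion).
(1) For all `k` and all characters `χ` of `Gal(L/K)` of the orders `1`, `2`, `3`, `4`, `6` the equality holds in the `χ`-part.
(2) If `Gal(L/K)` has an exponent dividing `4` or `6`, the question has a positive answer for `L/K` and all `k`.

Examples: `F₀ = ℚ`, `K` a quadratic field, and `L` its Hilbert class field, if the class group has an exponent which divides `4` or
`6` (`K = ℚ(√-14)`, `ℚ(√-17)`, `ℚ(√-26)`); over any `F₀`, the extensions `L = K(a ^ (1/4), a ∈ Δ)` of `K = F₀(ζ₄) ≠ F₀` and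
`L = K(a ^ (1/6), a ∈ Δ)` of `K = F₀(ζ₃) ≠ F₀` for finite subsets `Δ` of `F₀`. In (1) the field `F₀` may depend on the
character (take for `L` the field of `χ`).
The exponent `3` and all prime exponents are the subject of `PrimeExponentDescent`, the definitions of which are repeated here.

The data. `D : Data F` is a Galois extension `F` of `ℚ` with group `Γ`, which contains all the fields of the theorem, with an
embedding in `ℂ`, complex conjugation `c`, a finite set `S` of prime numbers with the ramified ones, and arithmetic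
Frobenius elements at the other prime numbers. `D.IsL f ℓ` says that `ℓ` is the Artin L-function of the character `f`
of `Γ` without the Euler factors at the primes in `S` (at `s = 1 - k`, `k > 1`, they are nonzero elements of the
field of the values of `f`); L-functions over the fixed field `K` of a subgroup `W` are those of the induced
characters. `Lead ℓ s₀ a`: the leading coefficient of `ℓ` at `s₀` is `a`. `V D k` is the complexification of the space `V⁺` of
`F` (as functions on `Γ`, by `τ = ι ∘ g`, divided by `i ^ (k - 1)`), and `B D k` its rational structure `B⁺`. The Borel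
regulator is given by the image `H` of `ℚ ⊗ K_{2k-1}(F)` in `V⁺` and an automorphism `α` of `V⁺` which commutes with `Γ` and
maps `B⁺` onto `H` (`R : Regulator D k`; it exists by Borel's theorem and the theorem of Noether and Deuring). As
`ℚ ⊗ K_{2k-1}(L)` is the part of `ℚ ⊗ K_{2k-1}(F)` which is fixed by `Gal(F/L)`,
we have `det_{ℚ[G]}(ℚ ⊗ K_{2k-1}(L)) = det(α) det_{ℚ[G]}(B_L⁺)`, and the question is whether in the `χ`-parts
(`part`) the determinants of `α` are the leading coefficients, up to an element of `ℚ[G]ˣ`: this is `R.Holds W χ`, with one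
`e ∈ E` for all embeddings of the field `E` of the values of `χ`.

The hypothesis `R.Borel` (the question for all subfields `L = K` of `F`) is a published theorem.

The proof. A quadratic character of a subgroup induces the difference of two permutation characters. If `χ` has the order
`4`, the character induced from `χ` to `Gal(L/F₀)` is also induced from a quadratic character of the subgroup `U` of index
two generated by an element outside of `Gal(L/K)` and the kernel of `χ ^ 2`; if it has the order `3` or `6`, it is induced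
from a quadratic character of the subgroup `U` (of index three), minus a quadratic character of `Gal(L/F₀)`.
The determinants of `α` on the `χ`-parts and the L-functions are multiplicative in the induced characters.
-/

set_option autoImplicit false

open NumberField Pool.Agent.U157.BB Pool.Agent.R389

namespace Pool.Agent.Results.MP_a93ca1_nt.DihedralExponents

variable {F : Type} [Field F] [NumberField F] [IsGalois ℚ F]

/-- The space `ℂ ⊗ V⁺` of the field `F`, the functions `b : Γ → ℂ` with `b(c g) = (-1) ^ (k - 1) b(g)`. The embeddings of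
`F` in `ℂ` are the `ι ∘ g`, `g ∈ Γ`, and the coordinate of `(a_τ) ∈ V⁺` at `τ = ι ∘ g` is `b(g) = a_τ / i ^ (k - 1)`. -/
def V (D : Data F) (k : ℕ) : Type := D.V k

noncomputable instance (D : Data F) (k : ℕ) : AddCommGroup (V D k) := Submodule.addCommGroup (D.V k)

noncomputable instance (D : Data F) (k : ℕ) : Module ℂ (V D k) := Submodule.module (D.V k)

noncomputable instance (D : Data F) (k : ℕ) : Module ℚ (V D k) := Submodule.module' (D.V k)

/-- the coordinate `b(g)` -/
def co {D : Data F} {k : ℕ} (b : V D k) (g : F ≃ₐ[ℚ] F) : ℂ := b.1 g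

/-- The rational structure `ℚ ⊗ B⁺` given by `B⁺ = (⊕ ℚ (2πi) ^ (k - 1))⁺`: its coordinates are rational multiples of
`(2π) ^ (k - 1)`. -/
def B (D : Data F) (k : ℕ) : Set (V D k) := {b | ∀ g, ∃ q : ℚ, co b g = q * (2 * Real.pi : ℂ) ^ (k - 1)}

/-- The Borel regulator of `F`: `H` is the image of `ℚ ⊗ K_{2k-1}(F)` in `V⁺`, and `α` is an automorphism of `V⁺` which
commutes with `Γ` and maps `B⁺` onto `H` (that is, an isomorphism of `ℚ[Γ]`-modules from `B⁺` to `ℚ ⊗ K_{2k-1}(F)`,
composed with the regulator). -/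
structure Regulator (D : Data F) (k : ℕ) where
  H : Submodule ℚ (V D k)
  α : V D k ≃ₗ[ℂ] V D k
  real : ∀ b : V D k, (∀ g, (co b g).im = 0) → ∀ g, (co (α b) g).im = 0
  equivariant : ∀ (h : F ≃ₐ[ℚ] F) (b b' : V D k), (∀ g, co b' g = co b (g * h)) →
    ∀ g, co (α b') g = co (α b) (g * h)
  image : α '' B D k = H

/-- `w b = χ(w) b` for all `w ∈ W`, where `(w b)(g) = b(g w)`. -/
def InPart {D : Data F} {k : ℕ} (W : Subgroup (F ≃ₐ[ℚ] F)) (χ : W →* ℂˣ) (b : V D k) : Prop :=
  ∀ (g : F ≃ₐ[ℚ] F) (w : W), co b (g * w) = ((χ w : ℂˣ) : ℂ) * co b g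

theorem part_add {D : Data F} {k : ℕ} (W : Subgroup (F ≃ₐ[ℚ] F)) (χ : W →* ℂˣ) {a b : V D k}
    (ha : InPart W χ a) (hb : InPart W χ b) : InPart W χ (a + b) :=
  (Data.part D k W χ).add_mem ha hb

theorem part_zero (D : Data F) (k : ℕ) (W : Subgroup (F ≃ₐ[ℚ] F)) (χ : W →* ℂˣ) :
    InPart W χ (0 : V D k) :=
  (Data.part D k W χ).zero_mem

theorem part_smul {D : Data F} {k : ℕ} (W : Subgroup (F ≃ₐ[ℚ] F)) (χ : W →* ℂˣ) (x : ℂ) {b : V D k}
    (hb : InPart W χ b) : InPart W χ (x • b) :=
  (Data.part D k W χ).smul_mem x hb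

/-- The `χ`-part of `ℂ ⊗ V⁺`, for a linear character `χ` of the subgroup `W` of `Γ`. -/
def part (D : Data F) (k : ℕ) (W : Subgroup (F ≃ₐ[ℚ] F)) (χ : W →* ℂˣ) : Submodule ℂ (V D k) where
  carrier := {b | InPart W χ b}
  add_mem' := part_add W χ
  zero_mem' := part_zero D k W χ
  smul_mem' := fun x _ => part_smul W χ x

/-- the determinant of an automorphism on an invariant subspace -/
noncomputable def detOn {M : Type} [AddCommGroup M] [Module ℂ M] (α : M ≃ₗ[ℂ] M) (P : Submodule ℂ M)
    (h : ∀ b ∈ P, α b ∈ P) : ℂ :=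
  LinearMap.det (M := P) ((α : M →ₗ[ℂ] M).restrict h)

/-- the same data, for the helper files -/
def Regulator.toR {D : Data F} {k : ℕ} (R : Regulator D k) : D.Regulator k where
  H := R.H
  α := R.α
  real := R.real
  equivariant := R.equivariant
  image := R.image

theorem Regulator.maps {D : Data F} {k : ℕ} (R : Regulator D k) (W : Subgroup (F ≃ₐ[ℚ] F)) (χ : W →* ℂˣ) :
    ∀ b ∈ part D k W χ, R.α b ∈ part D k W χ :=
  R.toR.maps W χ

/-- The determinant of the regulator on the `χ`-part. -/
noncomputable def Regulator.det {D : Data F} {k : ℕ} (R : Regulator D k) (W : Subgroup (F ≃ₐ[ℚ] F))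
    (χ : W →* ℂˣ) : ℂ :=
  detOn R.α (part D k W χ) (R.maps W χ)

/-- The equality of the question for the fixed field `K` of the subgroup `W` of `Γ` and the character `χ` of `W`: for
one `e ≠ 0` in `E` and all embeddings `τ` of `E` in `ℂ` the determinant of the regulator on the `τχ`-part is
`τ(e)` times the leading coefficient at `s = 1 - k` of the Artin L-function of `τχ⁻¹` over `K` (of the induced
character over `ℚ`). -/
def Regulator.Holds {D : Data F} {k : ℕ} (R : Regulator D k) {E : Type} [Field E] (W : Subgroup (F ≃ₐ[ℚ] F))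
    (χ : W →* Eˣ) : Prop :=
  ∃ e : E, e ≠ 0 ∧ ∀ τ : E →+* ℂ, ∃ (ℓ : ℂ → ℂ) (a : ℂ),
    D.IsL (ind W (fun w => τ (((χ w)⁻¹ : Eˣ) : E))) ℓ ∧ Lead ℓ (1 - k) a ∧
    R.det W ((Units.map (τ : E →* ℂ)).comp χ) = τ e * a

/-- Borel's theorem: the determinant of the regulator of every subfield `M` of `F` (the fixed field of `U`) is a
nonzero rational multiple of the leading coefficient of the zeta function of `M` at `s = 1 - k`. -/
def Regulator.Borel {D : Data F} {k : ℕ} (R : Regulator D k) : Prop :=
  ∀ U : Subgroup (F ≃ₐ[ℚ] F), R.Holds (E := ℚ) U 1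

/-- Beilinson's theorem: the equality of the question over the base field `ℚ`. -/
def Regulator.Beilinson {D : Data F} {k : ℕ} (R : Regulator D k) : Prop :=
  ∀ (E : Type) [Field E] [NumberField E] (χ : (⊤ : Subgroup (F ≃ₐ[ℚ] F)) →* Eˣ), R.Holds ⊤ χ

theorem Regulator.holds_iff {D : Data F} {k : ℕ} (R : Regulator D k) {E : Type} [Field E]
    (W : Subgroup (F ≃ₐ[ℚ] F)) (χ : W →* Eˣ) : R.Holds W χ ↔ R.toR.Holds W χ := Iff.rfl

/-- The question for the abelian extension `L/K`, where `K` and `L` are the fixed fields of the subgroups `W` and `N` of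
`Gal(F/ℚ)`: the equality holds in the `χ`-part for all characters `χ` of `W` which are trivial on `N`. -/
def Question {D : Data F} {k : ℕ} (R : Regulator D k) (W N : Subgroup (F ≃ₐ[ℚ] F)) : Prop :=
  ∀ (E : Type) [Field E] [NumberField E] (χ : W →* Eˣ), (∀ w : W, (w : F ≃ₐ[ℚ] F) ∈ N → χ w = 1) →
    R.Holds W χ

/-- `F₀ ⊆ K ⊆ L` are the fixed fields of the subgroups `H ⊇ W ⊇ N` of `Gal(F/ℚ)`, `K/F₀` is quadratic, `L/F₀` is Galois,
`Gal(L/K)` is abelian, and the elements of `Gal(L/F₀)` outside of `Gal(L/K)` have the order `2`. -/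
structure Dihedral (H W N : Subgroup (F ≃ₐ[ℚ] F)) : Prop where
  le : N ≤ W
  le' : W ≤ H
  quadratic : ∃ h ∈ H, h ∉ W
  quadratic' : ∀ x ∈ H, ∀ y ∈ H, x ∉ W → y ∉ W → x * y ∈ W
  galois : ∀ h ∈ H, ∀ x ∈ N, h * x * h⁻¹ ∈ N
  abelian : ∀ v ∈ W, ∀ w ∈ W, v * w * v⁻¹ * w⁻¹ ∈ N
  involution : ∀ h ∈ H, h ∉ W → h * h ∈ N

end Pool.Agent.Results.MP_a93ca1_nt.DihedralExponents

open Pool.Agent.Results.MP_a93ca1_nt.DihedralExponents

/-- **The equivariant Beilinson conjecture for generalised dihedral extensions.** -/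
theorem Pool.Agent.Results.MP_a93ca1_nt.DihedralExponents.result
    (F : Type) [Field F] [NumberField F] [IsGalois ℚ F] (D : Data F) (k : ℕ) (R : Regulator D k)
    (borel : R.Borel) (H W N : Subgroup (F ≃ₐ[ℚ] F)) (h : Dihedral H W N) :
    (∀ (E : Type) [Field E] [NumberField E] (χ : W →* Eˣ), (∀ w : W, (w : F ≃ₐ[ℚ] F) ∈ N → χ w = 1) →
      ((∀ w, χ w ^ 4 = 1) ∨ (∀ w, χ w ^ 6 = 1)) → R.Holds W χ) ∧
    (((∀ w ∈ W, w ^ 4 ∈ N) ∨ (∀ w ∈ W, w ^ 6 ∈ N)) → Question R W N) := by
  have hB : R.toR.Borel := fun U => (R.holds_iff U 1).1 (borel U)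
  obtain ⟨x, hx, hxW⟩ := h.quadratic
  have key : ∀ (E : Type) [Field E] [NumberField E] (χ : W →* Eˣ),
      (∀ w : W, (w : F ≃ₐ[ℚ] F) ∈ N → χ w = 1) →
      ((∀ w, χ w ^ 4 = 1) ∨ (∀ w, χ w ^ 6 = 1)) → R.Holds W χ := by
    intro E _ _ χ hχ hord
    have hD : Dh H W χ x := ⟨h.le', hx, hxW, h.quadratic', fun y hy hyW z hz => hχ z (by
      rw [hz]
      exact h.involution y hy hyW)⟩
    exact (R.holds_iff W χ).2 (Data.holds_dih hB E hD hord)
  refine ⟨key, fun hexp E _ _ χ hχ => key E χ hχ ?_⟩
  rcases hexp with h4 | h6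
  · exact Or.inl fun w => by
      rw [← map_pow]
      exact hχ _ (h4 w w.2)
  · exact Or.inr fun w => by
      rw [← map_pow]
      exact hχ _ (h6 w w.2)
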