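import Mathlib
import Pool.Agent.U213.BE.Main

/-!
# Beilinson's equivariant conjecture for `K_{2k-1}`, `k` odd: reduction to cyclic and to unramified
extensions of totally complex fields

The definitions are in `Pool.Agent.U213.BE.Defs` and `Pool.Agent.U213.BE.Main` (and, for the Artin
L-functions, in `Pool.Agent.K4H74.SC.Core`).
-/

set_option autoImplicit false

namespace Pool.Agent.Results.MP_a93ca1_nt.TotallyComplexBases

open Pool.Agent.K4H74 Pool.Agent.U213.BE

/-- Let `k > 1` be odd, and let `T` be the rational `K`-groups `K_{2k-1}` of the number fields with Borel's
regulator. Systems `c` of leading coefficients at `1 - k` of the Artin L-functions exist (by Brauer's theorem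
on the meromorphic continuation the only one is `L*(χ, 1 - k)`). Assume the known cases (Borel; Siegel,
Klingen, Shintani).

(1) Beilinson's conjecture for all abelian extensions of number fields is equivalent to its cases
`ComplexCase` (`K` totally complex and `L/K` cyclic) and `MixedCase` (`K` neither totally real nor totally
complex, `L/K` cyclic of degree `4, 8, 16, ...`, unramified at infinity) together, and also to the
conjecture for all characters of all Galois extensions.

(2) `ComplexCase` alone implies the conjecture for all characters of `L/K` if `K` is totally real and the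
complex conjugations are central in `Gal(L/K)` (for instance if `L/K` is abelian), and if `Gal(L/K)` has no
element of order `4`.

(3) Let `m ≠ 0`. Let `L` be contained in the Galois extension `N` of `ℚ`, and let `y^e = 1` in
`Gal(N/ℚ)`. Assume Beilinson's conjecture for the cyclic extensions of totally complex fields which have a
degree dividing `2 e`, which are unramified at all finite primes and in which the primes above `m` split
completely. Then the conjecture holds for every character of `Gal(L/K)` up to a root of unity whose order
has only prime divisors of `2 [N : ℚ]`. -/
theorem result (T : KTheory) (k : ℕ) (_ : 1 < k) (_ : Odd k) :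
    (∃ c : SK.Pair → ℂ, IsLeading (1 - (k : ℂ)) c) ∧
    ∀ c : SK.Pair → ℂ, IsLeading (1 - (k : ℂ)) c → Known T k c →
      (AbelianCase T k c ↔ ComplexCase T k c ∧ MixedCase T k c) ∧
      (AbelianCase T k c ↔ AllCharacters T k c) ∧
      (ComplexCase T k c → CentralCase T k c) ∧
      (∀ m e : ℕ, m ≠ 0 → UnramifiedCase T k c m (2 * e) → UpToRootsOfUnity T k c e) := by
  refine ⟨exists_isLeading' _, fun c hc hK => ⟨(abelian_iff hc hK).1, (abelian_iff hc hK).2, ?_, ?_⟩⟩
  · intro hC K L _ _ _ _ _ _ hG χ hχ σ
    exact real_or_four hc hK hC K L hG hχ σ
  · intro m e hm hU K L N _ _ _ _ _ _ _ _ _ _ he χ hχ σ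
    exact defect_of hc hK hm K L N he hU hχ σ

end Pool.Agent.Results.MP_a93ca1_nt.TotallyComplexBases
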